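import Pool.Agent.H57.LH.Targets2

/-!
# Row OPC: switching between two shapes
-/

set_option autoImplicit false

namespace Pool.Agent.H39.LH

open Pool.Agent.H68.BP Pool.Agent.H58.SF Pool.Agent.H53.GC Pool.Agent.H53.NR
open Pool.Agent.H53.GR (Dm Ps)
open Pool.Agent.H53.GM (Adj)
open Pool.Agent.H57.AR (tp ty tpo pullO Ty OT HomEq El ElD FamR Od GmR INJ lft)
open Pool.Agent.H57.SO (Pal Col vt Bh Sbn fib sigF)
open Pool.Agent.H57.EQ (Cx T_CYF)
open Pool.Agent.H57.LCI (LocalCompletions Pre Realizes)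
open Pool.Agent.H44.KR (HB Amg Tyi Rz Rlz Clp LInj Prm TpOn RmL LcN Pl lr blk Fv kv RkI Kd JJ Yc IsTh
  Can Plf Pls plc At inSh Cfg AdT Ent reg col2)
open Pool.Agent.H57.LH Function

theorem pf_OPC : T_OPC := by
  classical
  intro V σ ρ 𝔸 𝔹 L Φ hB hC r j h1 h2 h3 v v' hv hv' κ hκ H
  refine ⟨fun t => if H (t κ) then v' t else v t, ?_, fun t => ⟨fun h => if_pos h, fun h => if_neg h⟩⟩
  intro W _ G
  let b : W → Fin 6 → Pl L × V := fun w c =>
    (if H (vs 𝔹 (G κ w)) then plc L r (j + 1) c else plc L r j c, G (lr r c) w)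
  have hbp : ∀ w, H (vs 𝔹 (G κ w)) → b w = blk L r (j + 1) (fun c => G (lr r c) w) := by
    intro w hw
    funext c
    exact Prod.ext (if_pos hw) rfl
  have hbn : ∀ w, ¬ H (vs 𝔹 (G κ w)) → b w = blk L r j (fun c => G (lr r c) w) := by
    intro w hw
    funext c
    exact Prod.ext (if_neg hw) rfl
  have hbp1 : ∀ w, H (vs 𝔹 (G κ w)) → ∀ c, (b w c).1 = plc L r (j + 1) c := fun w hw c => if_pos hw
  have hbn1 : ∀ w, ¬ H (vs 𝔹 (G κ w)) → ∀ c, (b w c).1 = plc L r j c := fun w hw c => if_neg hw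
  obtain ⟨rk, hrk⟩ := Set.countable_iff_exists_injOn.1
    (Set.finite_range (fun q : W × Fin 6 => b q.1 q.2)).countable
  have hent : ∀ c c', Ent r (j + 1) c c' → lr r c = lr r c' := by
    rintro c c' (h | h)
    · rw [h]
    · exact h.1
  have hmix : ∀ Z w w' c c', ¬ H (vs 𝔹 (G κ w)) → H (vs 𝔹 (G κ w')) →
      inSh Z (b w c).1 → inSh Z (b w' c').1 → (b w c).2 = (b w' c').2 →
      (b w c).1 = (b w' c').1 := by
    intro Z w w' c c' hw hw' hz hz' he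
    rw [hbn1 w hw c] at hz ⊢
    rw [hbp1 w' hw' c'] at hz' ⊢
    have hE := h3.sh Z c c' hz hz'
    refine (h3.eq c c').2 ⟨hE, fun hl => ?_⟩
    have hk : lr r c = κ := Fin.ext (hl.trans hκ.symm)
    have hk' : lr r c' = κ := (hent c c' hE).symm.trans hk
    have he' : G (lr r c) w = G (lr r c') w' := he
    rw [hk, hk'] at he'
    rw [he'] at hw
    exact hw hw'
  have hcfg : Cfg r b rk := by
    refine ⟨fun w c => ?_, fun w w' c => ?_, fun Z w w' c c' hz hz' he => ?_, ?_⟩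
    · by_cases hw : H (vs 𝔹 (G κ w))
      · rw [hbp1 w hw c]; exact h2.at_ c
      · rw [hbn1 w hw c]; exact h1.at_ c
    · by_cases hw : H (vs 𝔹 (G κ w)) <;> by_cases hw' : H (vs 𝔹 (G κ w'))
      · rw [hbp1 w hw c, hbp1 w' hw' c]; exact h2.adj c c
      · rw [hbp1 w hw c, hbn1 w' hw' c]; exact h3.adj' c c
      · rw [hbn1 w hw c, hbp1 w' hw' c]; exact h3.adj c c
      · rw [hbn1 w hw c, hbn1 w' hw' c]; exact h1.adj c c
    · by_cases hw : H (vs 𝔹 (G κ w)) <;> by_cases hw' : H (vs 𝔹 (G κ w'))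
      · rw [hbp1 w hw c] at hz ⊢
        rw [hbp1 w' hw' c'] at hz' ⊢
        exact (h2.eq c c').2 (h2.sh Z c c' hz hz')
      · exact (hmix Z w' w c' c hw' hw hz' hz he.symm).symm
      · exact hmix Z w w' c c' hw hw' hz hz' he
      · rw [hbn1 w hw c] at hz ⊢
        rw [hbn1 w' hw' c'] at hz' ⊢
        exact (h1.eq c c').2 (h1.sh Z c c' hz hz')
    · intro q q' hq
      exact hrk ⟨q, rfl⟩ ⟨q', rfl⟩ hq
  obtain ⟨ψ, hψ, hcol⟩ := hC.out r W b rk hcfg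
  refine ⟨ψ, fun l z hz => hψ l z fun c => hz (lr r c), fun w => ?_⟩
  have hrkw : RkI rk (b w) := fun i i' h => hrk ⟨(w, i), rfl⟩ ⟨(w, i'), rfl⟩ h
  have hA : ∀ c c', Adj (reg (b w c).1) (reg (b w c').1) := by
    intro c c'
    by_cases hw : H (vs 𝔹 (G κ w))
    · rw [hbp1 w hw c, hbp1 w hw c']; exact h2.adj c c'
    · rw [hbn1 w hw c, hbn1 w hw c']; exact h1.adj c c'
  have hAdT : AdT (Sum.elim (b w) (b w)) := by
    rintro (i | i) (i' | i') <;> exact hA i i'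
  have hc : ty 𝔹 (ψ w) = (Fv 𝔹 Φ rk (b w) (b w)).2.1 := congrArg (fun y => y.2.1) (hcol w w hAdT)
  have hvt : (fun i => vt (P0 𝔹) (c0 𝔹) (G i w)) = fun i => vs 𝔹 (G i w) :=
    funext fun i => vt_c0 𝔹 _
  rw [vt_c0, hvt]
  apply Subtype.ext
  show ty 𝔹 (ψ w) = (if H (vs 𝔹 (G κ w)) then v' (fun i => vs 𝔹 (G i w))
    else v (fun i => vs 𝔹 (G i w))).1
  by_cases hw : H (vs 𝔹 (G κ w))
  · rw [if_pos hw, hc, hbp w hw]
    rw [hbp w hw] at hrkw
    exact hv' (fun d => G d w) rk hrkw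
  · rw [if_neg hw, hc, hbn w hw]
    rw [hbn w hw] at hrkw
    exact hv (fun d => G d w) rk hrkw

end Pool.Agent.H39.LH
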