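import Pool.Agent.H57.LH.Targets2

/-!
# Row ZIG: zigzag cycles
-/

set_option autoImplicit false

namespace Pool.Agent.H39.LH

open Pool.Agent.H68.BP Pool.Agent.H58.SF Pool.Agent.H53.GC Pool.Agent.H53.NR
open Pool.Agent.H53.GR (Dm Ps)
open Pool.Agent.H57.AR (tp ty tpo pullO Ty OT HomEq El ElD FamR Od GmR INJ lft)
open Pool.Agent.H57.SO (Pal Col vt Bh Sbn fib sigF)
open Pool.Agent.H57.EQ (Cx T_CYF)
open Pool.Agent.H57.LCI (LocalCompletions Pre Realizes)
open Pool.Agent.H44.KR (HB Amg Tyi Rz Rlz Clp LInj Prm TpOn RmL LcN Pl lr blk Fv kv RkI Kd JJ Yc IsTh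
  Can Plf Pls)
open Pool.Agent.H57.LH Function

/-- the ranks -/
def zrk (m : ℕ) (P Q : Bool) (j : ℕ) : ℕ :=
  if j = 0 then (if Q then 2 * m + 5 else 2 * m + 6)
  else if j = 2 * m + 1 then (if Q then 2 * m + 6 else 2 * m + 5)
  else if j % 2 = 0 then (if P then j else 4 * m + 10 + j)
  else (if P then 4 * m + 10 + j else j)

theorem zrk_inj (m : ℕ) (P Q : Bool) (a b : ℕ) (ha : a < 2 * m + 2) (hb : b < 2 * m + 2)
    (h : zrk m P Q a = zrk m P Q b) : a = b := by
  unfold zrk at h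
  cases P <;> cases Q <;> simp only [Bool.false_eq_true, if_false, if_true] at h <;>
    split_ifs at h <;> omega

theorem zrk_step (m : ℕ) (hm : 1 ≤ m) (P Q : Bool) (e o : ℕ) (he : e < 2 * m + 2)
    (ho : o < 2 * m + 2) (h0 : e % 2 = 0) (h1 : o % 2 = 1) (h : o = e + 1 ∨ e = o + 1) :
    zrk m P Q e < zrk m P Q o ↔ P = true := by
  unfold zrk
  cases P <;> cases Q <;> simp only [Bool.false_eq_true, if_false, if_true, iff_true, iff_false] <;>
    split_ifs <;> omega

theorem zrk_last (m : ℕ) (P Q : Bool) : zrk m P Q 0 < zrk m P Q (2 * m + 1) ↔ Q = true := by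
  unfold zrk
  cases Q <;> simp

variable {V : Type} {ρ : Sig} [LinearOrder V] {𝔹 : Str ρ V}

/-- the ordered type of two different elements -/
theorem zig_two {x y : V} {p : Fin 2 → V} (hp : pull 𝔹 ![x, y] = pull 𝔹 p) (hxy : x ≠ y)
    (hne : p 0 ≠ p 1) (h : x < y ↔ p 0 < p 1) : tpo 𝔹 ![x, y] = tpo 𝔹 p := by
  refine Prod.ext hp ?_
  have h' : y < x ↔ p 1 < p 0 := by
    constructor
    · intro h1
      rcases lt_trichotomy (p 0) (p 1) with h2 | h2 | h2
      · exact absurd (h.2 h2) (asymm h1)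
      · exact absurd h2 hne
      · exact h2
    · intro h1
      rcases lt_trichotomy x y with h2 | h2 | h2
      · exact absurd (h.1 h2) (asymm h1)
      · exact absurd h2 hxy
      · exact h2
  have key : ∀ a b : Fin 2, ![x, y] a < ![x, y] b ↔ p a < p b := by
    intro a b
    fin_cases a <;> fin_cases b
    · exact ⟨fun h => absurd h (lt_irrefl _), fun h => absurd h (lt_irrefl _)⟩
    · exact h
    · exact h'
    · exact ⟨fun h => absurd h (lt_irrefl _), fun h => absurd h (lt_irrefl _)⟩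
  funext a b
  exact propext (key a b)

/-- the ordered type of a tuple of equal elements -/
theorem zig_eq {x : V} {p : Fin 2 → V} (ht : ty 𝔹 x = ty 𝔹 (p 0)) (he : p 0 = p 1) :
    tpo 𝔹 ![x, x] = tpo 𝔹 p := by
  have hx : ∀ a : Fin 2, ![x, x] a = x := by intro a; fin_cases a <;> rfl
  have hp : ∀ a : Fin 2, p a = p 0 := by
    intro a; fin_cases a
    · rfl
    · exact he.symm
  refine Prod.ext ?_ ?_
  · funext l z
    show 𝔹 l (fun i => ![x, x] (z i)) = 𝔹 l (fun i => p (z i))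
    have e1 : (fun i => ![x, x] (z i)) = fun _ => x := funext fun i => hx _
    have e2 : (fun i => p (z i)) = fun _ => p 0 := funext fun i => hp _
    rw [e1, e2]
    exact congrFun ht l
  · funext a b
    show (![x, x] a < ![x, x] b) = (p a < p b)
    rw [hx a, hx b, hp a, hp b]
    exact propext ⟨fun h => absurd h (lt_irrefl _), fun h => absurd h (lt_irrefl _)⟩

omit [LinearOrder V] in
theorem zig_comp {W : Type} {f g : W → V} (h : tp 𝔹 f = tp 𝔹 g) (a b : W) :
    pull 𝔹 ![f a, f b] = pull 𝔹 ![g a, g b] := by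
  have h1 : pull 𝔹 f = pull 𝔹 g := congrArg Prod.snd h
  have e : ∀ f : W → V, pull 𝔹 ![f a, f b] = fun l z => pull 𝔹 f l (fun i => ![a, b] (z i)) := by
    intro f
    funext l z
    show 𝔹 l (fun i => ![f a, f b] (z i)) = 𝔹 l (fun i => f (![a, b] (z i)))
    congr 1
    funext i
    have : ∀ c : Fin 2, ![f a, f b] c = f (![a, b] c) := by intro c; fin_cases c <;> rfl
    exact this _
  rw [e f, e g, h1]

theorem zig_one {m : ℕ} (hO : OrdL 𝔹) (hm : 1 ≤ m) (hC : Cyg 𝔹 m) (p q : Fin 2 → V)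
    (ht : ∀ a, ty 𝔹 (q a) = ty 𝔹 (p a)) (he : q 0 = q 1 ↔ p 0 = p 1) :
    ∃ f : Fin (2 * m + 2) → V, (∀ e o : Fin (2 * m + 2), (e : ℕ) % 2 = 0 → (o : ℕ) % 2 = 1 →
      ((o : ℕ) = e + 1 ∨ (e : ℕ) = o + 1) → tpo 𝔹 ![f e, f o] = tpo 𝔹 p) ∧
      tpo 𝔹 ![f 0, f (Fin.last (2 * m + 1))] = tpo 𝔹 q := by
  classical
  by_cases h : p 0 = p 1
  · refine ⟨fun _ => q 0, fun e o _ _ _ => zig_eq (ht 0) h, zig_eq rfl (he.2 h)⟩
  · have hq : q 0 ≠ q 1 := fun h' => h (he.1 h')
    obtain ⟨f, hf, hs, hl⟩ := hC p q h hq (ht 0) (ht 1)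
    let rk : Fin (2 * m + 2) → ℕ := fun j =>
      zrk m (decide (p 0 < p 1)) (decide (q 0 < q 1)) (j : ℕ)
    have hrk : Injective rk := fun a b hab => Fin.ext (zrk_inj m _ _ a b a.2 b.2 hab)
    obtain ⟨f', hf', ho⟩ := hO (Fin (2 * m + 2)) f rk
      (fun a b => ⟨fun h => congrArg f (hrk h), fun h => congrArg rk (hf h)⟩)
    have hinj : Injective f' := by
      intro a b hab
      have h1 : (f' a = f' b) = (f a = f b) := congrFun (congrFun (congrArg Prod.fst hf') a) b
      exact hf (h1 ▸ hab)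
    refine ⟨f', fun e o h0 h1 hc => ?_, ?_⟩
    · have hne : e ≠ o := by
        rintro rfl
        omega
      refine zig_two ?_ (fun h => hne (hinj h)) h ?_
      · rw [zig_comp hf' e o]
        rcases hc with hc | hc
        · exact congrArg Prod.snd ((hs e o hc).1 h0)
        · exact congrArg Prod.snd ((hs o e hc).2 h1)
      · rw [ho e o]
        exact (zrk_step m hm _ _ e o e.2 o.2 h0 h1 hc).trans decide_eq_true_iff
    · have hne : (0 : Fin (2 * m + 2)) ≠ Fin.last (2 * m + 1) := by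
        intro h
        have := congrArg Fin.val h
        simp at this
      refine zig_two ?_ (fun h => hne (hinj h)) hq ?_
      · rw [zig_comp hf']
        exact congrArg Prod.snd hl
      · rw [ho]
        exact (zrk_last m _ _).trans decide_eq_true_iff

omit [LinearOrder V] in
theorem zig_fun {W I : Type} (G : I → W → V) (a b : W) (i : I) :
    (fun c : Fin 2 => G i (![a, b] c)) = ![G i a, G i b] := by
  funext c; fin_cases c <;> rfl

omit [LinearOrder V] in
theorem zig_fun' {W : Type} (g : W → V) (a b : W) :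
    (fun c : Fin 2 => g (![a, b] c)) = ![g a, g b] := by
  funext c; fin_cases c <;> rfl

theorem pf_ZIG : T_ZIG := by
  intro V σ ρ _ 𝔸 𝔹 m hO hm hC I _ R Ψ hcan p q ht he hE
  choose f hf1 hf2 using fun i => zig_one hO hm hC (p i) (q i) (ht i) (he i)
  obtain ⟨ψ, -, hψ, -⟩ := hcan (Fin (2 * m + 2)) f
  have hstep : ∀ e o : Fin (2 * m + 2), (e : ℕ) % 2 = 0 → (o : ℕ) % 2 = 1 →
      ((o : ℕ) = e + 1 ∨ (e : ℕ) = o + 1) → ψ e = ψ o := by
    intro e o h0 h1 hc
    have h2 := hψ 2 ![e, o]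
    rw [zig_fun'] at h2
    have h3 : (fun i => tpo 𝔹 (fun a => f i (![e, o] a))) = fun i => tpo 𝔹 (p i) := by
      funext i
      rw [zig_fun f e o i]
      exact hf1 i e o h0 h1 hc
    rw [h3] at h2
    rw [← h2] at hE
    obtain ⟨h4, h5⟩ := hE
    have h4' : ¬ ψ e < ψ o := h4
    have h5' : ¬ ψ o < ψ e := h5
    exact le_antisymm (not_lt.1 h5') (not_lt.1 h4')
  have hall : ∀ (j : ℕ) (hj : j < 2 * m + 2), ψ ⟨j, hj⟩ = ψ 0 := by
    intro j
    induction j with
    | zero => intro hj; rfl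
    | succ j ih =>
      intro hj
      rw [← ih (by omega)]
      rcases Nat.mod_two_eq_zero_or_one j with h | h
      · exact (hstep ⟨j, by omega⟩ ⟨j + 1, hj⟩ h (by show (j + 1) % 2 = 1; omega)
          (Or.inl rfl)).symm
      · exact hstep ⟨j + 1, hj⟩ ⟨j, by omega⟩ (by show (j + 1) % 2 = 0; omega) h (Or.inr rfl)
  have hl : ψ (Fin.last (2 * m + 1)) = ψ 0 := hall (2 * m + 1) (by omega)
  have h2 := hψ 2 ![0, Fin.last (2 * m + 1)]
  rw [zig_fun'] at h2
  have h3 : (fun i => tpo 𝔹 (fun a => f i (![0, Fin.last (2 * m + 1)] a))) =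
      fun i => tpo 𝔹 (q i) := by
    funext i
    rw [zig_fun f 0 (Fin.last (2 * m + 1)) i]
    exact hf2 i
  rw [h3] at h2
  rw [← h2]
  refine ⟨?_, ?_⟩
  · show ¬ ψ 0 < ψ (Fin.last (2 * m + 1))
    rw [hl]; exact lt_irrefl _
  · show ¬ ψ (Fin.last (2 * m + 1)) < ψ 0
    rw [hl]; exact lt_irrefl _

end Pool.Agent.H39.LH
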